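import Mathlib
import Pool.Agent.H565R2.FO2.Myc

set_option autoImplicit false

namespace Pool.Agent.R252.Plastic

open Set Topology

variable {X Y : Type*}

/-- `U` is covered by countably many fibres of the maps `h n`. -/
def CC (h : ℤ → X → Y) (U : Set X) : Prop :=
  ∃ S : Set (ℤ × Y), S.Countable ∧ ∀ x ∈ U, ∃ s ∈ S, h s.1 x = s.2

lemma CC.mono {h : ℤ → X → Y} {U V : Set X} (hV : CC h V) (hUV : U ⊆ V) : CC h U := by
  obtain ⟨S, hS, h1⟩ := hV
  exact ⟨S, hS, fun x hx => h1 x (hUV hx)⟩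

lemma CC.union {h : ℤ → X → Y} {U V : Set X} (hU : CC h U) (hV : CC h V) : CC h (U ∪ V) := by
  obtain ⟨S, hS, h1⟩ := hU
  obtain ⟨T, hT, h2⟩ := hV
  refine ⟨S ∪ T, hS.union hT, ?_⟩
  rintro x (hx | hx)
  · obtain ⟨s, hs, e⟩ := h1 x hx
    exact ⟨s, Or.inl hs, e⟩
  · obtain ⟨s, hs, e⟩ := h2 x hx
    exact ⟨s, Or.inr hs, e⟩

lemma CC.sUnion {h : ℤ → X → Y} {T : Set (Set X)} (hT : T.Countable)
    (hU : ∀ U ∈ T, CC h U) : CC h (⋃₀ T) := by
  choose! S hS h1 using hU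
  refine ⟨⋃ U ∈ T, S U, hT.biUnion hS, ?_⟩
  rintro x ⟨U, hUT, hx⟩
  obtain ⟨s, hs, e⟩ := h1 U hUT x hx
  exact ⟨s, mem_biUnion hUT hs, e⟩

lemma CC.fibre (h : ℤ → X → Y) (n : ℤ) (y : Y) : CC h {x | h n x = y} := by
  refine ⟨{(n, y)}, countable_singleton _, ?_⟩
  intro x hx
  exact ⟨(n, y), rfl, hx⟩

variable [MetricSpace X] [CompleteSpace X] [SecondCountableTopology X] [TopologicalSpace Y]
  [T2Space Y]

theorem exists_cantor (h : ℤ → X → Y) (hc : ∀ n, Continuous (h n)) (hn : ¬ CC h univ) :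
    ∃ e : (ℕ → Bool) → X, ∀ n, Function.Injective (h n ∘ e) := by
  -- the kernel
  set 𝒰 : Set (Set X) := {U | IsOpen U ∧ CC h U} with h𝒰
  set C : Set X := (⋃₀ 𝒰)ᶜ with hC
  have hCc : IsClosed C := by
    rw [hC, isClosed_compl_iff]
    exact isOpen_sUnion fun U hU => hU.1
  have hcov : CC h (⋃₀ 𝒰) := by
    obtain ⟨T, hT, hTs, hTe⟩ := TopologicalSpace.isOpen_sUnion_countable 𝒰 fun U hU => hU.1
    rw [← hTe]
    exact CC.sUnion hT fun U hU => (hTs hU).2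
  have hker : ∀ U : Set X, IsOpen U → (U ∩ C).Nonempty → ¬ CC h (U ∩ C) := by
    rintro U hU ⟨x, hxU, hxC⟩ hcc
    apply hxC
    refine ⟨U, ⟨hU, ?_⟩, hxU⟩
    apply (hcc.union hcov).mono
    intro y hy
    by_cases hyC : y ∈ C
    · exact Or.inl ⟨hy, hyC⟩
    · right
      rw [hC, mem_compl_iff, not_not] at hyC
      exact hyC
  have hne : C.Nonempty := by
    by_contra hcon
    rw [not_nonempty_iff_eq_empty] at hcon
    apply hn
    have : (⋃₀ 𝒰) = univ := by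
      rw [← compl_compl (⋃₀ 𝒰), ← hC, hcon, compl_empty]
    rw [← this]
    exact hcov
  haveI : Nonempty C := hne.to_subtype
  haveI : CompleteSpace C := hCc.completeSpace_coe
  let W : ℕ → Set (C × C) := fun k =>
    {p | h (Equiv.intEquivNat.symm k) p.1 ≠ h (Equiv.intEquivNat.symm k) p.2}
  have hWo : ∀ k, IsOpen (W k) := by
    intro k
    have h1 : Continuous fun p : C × C => h (Equiv.intEquivNat.symm k) p.1 :=
      (hc _).comp (continuous_subtype_val.comp continuous_fst)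
    have h2 : Continuous fun p : C × C => h (Equiv.intEquivNat.symm k) p.2 :=
      (hc _).comp (continuous_subtype_val.comp continuous_snd)
    exact isOpen_ne_fun h1 h2
  have hWd : ∀ k, Dense (W k) := by
    intro k
    rw [dense_iff_inter_open]
    intro O hO ⟨p, hp⟩
    obtain ⟨U, V, hU, hV, hpU, hpV, hUV⟩ := isOpen_prod_iff.1 hO p.1 p.2 hp
    obtain ⟨V', hV', rfl⟩ := isOpen_induced_iff.1 hV
    have h1 : ¬ CC h (V' ∩ C) := hker V' hV' ⟨p.2, hpV, p.2.2⟩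
    have h2 : ∃ y ∈ V' ∩ C, h (Equiv.intEquivNat.symm k) y
        ≠ h (Equiv.intEquivNat.symm k) p.1 := by
      by_contra hcon
      push Not at hcon
      exact h1 ((CC.fibre h (Equiv.intEquivNat.symm k) (h (Equiv.intEquivNat.symm k) p.1)).mono
        hcon)
    obtain ⟨y, hy, hyne⟩ := h2
    refine ⟨(p.1, ⟨y, hy.2⟩), hUV ⟨hpU, hy.1⟩, ?_⟩
    exact hyne.symm
  obtain ⟨e, -, he⟩ := Pool.Agent.H565R2.FO2.mycielski W hWo hWd
  refine ⟨fun b => (e b : X), ?_⟩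
  intro n b b' hbb
  by_contra hne'
  have := he b b' hne' (Equiv.intEquivNat n)
  apply this
  simpa using hbb

end Pool.Agent.R252.Plastic
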