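import Mathlib

set_option autoImplicit false

namespace Pool.Agent.R252.Plastic

open Set Cardinal

lemma card_closure_lt {E : Type} [AddCommGroup E] {s : Set E} (hs : #s < 𝔠) :
    #(AddSubgroup.closure s) < 𝔠 := by
  set T : Set E := s ∪ -s with hT
  have hT1 : #T < 𝔠 := by
    refine lt_of_le_of_lt (mk_union_le _ _) ?_
    apply add_lt_of_lt aleph0_le_continuum hs
    have : #(-s : Set E) = #s := by
      have h1 : (-s : Set E) = (fun x => -x) '' s := by
        ext x
        simp [Set.mem_image, neg_eq_iff_eq_neg, eq_comm]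
      rw [h1]
      exact mk_image_eq neg_injective
    rw [this]
    exact hs
  have h2 : (AddSubgroup.closure s : Set E) ⊆ range (fun l : List T => (l.map Subtype.val).sum) := by
    intro x hx
    rw [SetLike.mem_coe, ← AddSubgroup.mem_toAddSubmonoid, AddSubgroup.closure_toAddSubmonoid] at hx
    obtain ⟨l, hl, rfl⟩ := AddSubmonoid.exists_list_of_mem_closure hx
    refine ⟨l.attachWith (· ∈ T) hl, ?_⟩
    simp
  have h3 : #(AddSubgroup.closure s) ≤ #(List T) :=
    (mk_le_mk_of_subset h2).trans mk_range_le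
  refine h3.trans_lt ((mk_list_le_max _).trans_lt ?_)
  exact max_lt aleph0_lt_continuum hT1

theorem exists_group {E : Type} [AddCommGroup E] {I : Type} [LinearOrder I] [WellFoundedLT I]
    (hI : ∀ i : I, #(Iio i) < 𝔠) (F : I → E → E) (P : I → Prop) (G0 : Set E) (hG0 : #G0 < 𝔠)
    (hsel : ∀ i, P i → ∀ (G' : AddSubgroup E) (Z : Set E), #G' < 𝔠 → #Z < 𝔠 →
      (∀ z ∈ Z, z ∉ G') → ∃ x, (∀ n : ℤ, ∀ g ∈ G', g + n • x ∉ Z) ∧
        (∀ n : ℤ, ∀ g ∈ G', F i x ≠ g + n • x)) :
    ∃ G : AddSubgroup E, G0 ⊆ G ∧ ∀ i, P i → ∃ x ∈ G, F i x ∉ G := by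
  classical
  let good : I → AddSubgroup E → Set E → E → Prop := fun i G' Z x =>
    (∀ n : ℤ, ∀ g ∈ G', g + n • x ∉ Z) ∧ (∀ n : ℤ, ∀ g ∈ G', F i x ≠ g + n • x)
  let Φ : ∀ i : I, (Iio i → E) → E := fun i f =>
    if h : P i ∧ ∃ y, good i (AddSubgroup.closure (G0 ∪ range f))
      {z | ∃ j : Iio i, P j ∧ F j (f j) = z} y then h.2.choose else 0
  obtain ⟨x, hx⟩ : ∃ x : I → E, ∀ i, x i = Φ i (fun j => x j) := by
    refine ⟨WellFounded.fix (wellFounded_lt (α := I)) (fun i f => Φ i (fun j => f j j.2)), ?_⟩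
    intro i
    rw [WellFounded.fix_eq]
  let Kc : Set I → AddSubgroup E := fun A => AddSubgroup.closure (G0 ∪ x '' A)
  let Zc : I → Set E := fun i => {z | ∃ j, j < i ∧ P j ∧ F j (x j) = z}
  have hKmono : ∀ A B : Set I, A ⊆ B → Kc A ≤ Kc B := fun A B hAB =>
    AddSubgroup.closure_mono (union_subset_union_right _ (image_mono hAB))
  have hG0K : ∀ A : Set I, AddSubgroup.closure G0 ≤ Kc A := fun A =>
    AddSubgroup.closure_mono subset_union_left
  have hx0 : ∀ i, ¬ P i → x i = 0 := by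
    intro i hi
    rw [hx i]
    simp only [Φ]
    rw [dif_neg]
    exact fun h => hi h.1
  have hxg : ∀ i, P i → (∃ y, good i (Kc (Iio i)) (Zc i) y) → good i (Kc (Iio i)) (Zc i) (x i) := by
    intro i hi hy
    have e1 : AddSubgroup.closure (G0 ∪ range (fun j : Iio i => x j)) = Kc (Iio i) := by
      simp only [Kc]
      rw [image_eq_range]
    have e2 : {z | ∃ j : Iio i, P j ∧ F j (x j) = z} = Zc i := by
      ext z
      constructor
      · rintro ⟨j, h1, h2⟩
        exact ⟨j, j.2, h1, h2⟩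
      · rintro ⟨j, h0, h1, h2⟩
        exact ⟨⟨j, h0⟩, h1, h2⟩
    have hcond : P i ∧ ∃ y, good i (AddSubgroup.closure (G0 ∪ range (fun j : Iio i => x j)))
        {z | ∃ j : Iio i, P j ∧ F j (x j) = z} y := by
      rw [e1, e2]
      exact ⟨hi, hy⟩
    have e3 : x i = hcond.2.choose := by
      rw [hx i]
      simp only [Φ]
      rw [dif_pos hcond]
    have e4 := hcond.2.choose_spec
    rw [← e3, e1, e2] at e4
    exact e4
  have hA : ∀ (A : Set I) (y : E), y ∈ Kc A → y ∈ AddSubgroup.closure G0 ∨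
      ∃ δ ∈ A, y ∈ Kc (Iic δ) := by
    intro A y hy
    induction hy using AddSubgroup.closure_induction with
    | mem z hz =>
      rcases hz with hz | ⟨j, hj, rfl⟩
      · exact Or.inl (AddSubgroup.subset_closure hz)
      · exact Or.inr ⟨j, hj, AddSubgroup.subset_closure (Or.inr ⟨j, self_mem_Iic, rfl⟩)⟩
    | zero => exact Or.inl (zero_mem _)
    | neg z _ ih =>
      rcases ih with h | ⟨δ, hδ, h⟩
      · exact Or.inl (neg_mem h)
      · exact Or.inr ⟨δ, hδ, neg_mem h⟩
    | add z w _ _ ih1 ih2 =>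
      rcases ih1 with h1 | ⟨δ, hδ, h1⟩
      · rcases ih2 with h2 | ⟨δ', hδ', h2⟩
        · exact Or.inl (add_mem h1 h2)
        · exact Or.inr ⟨δ', hδ', add_mem (hG0K _ h1) h2⟩
      · rcases ih2 with h2 | ⟨δ', hδ', h2⟩
        · exact Or.inr ⟨δ, hδ, add_mem h1 (hG0K _ h2)⟩
        · rcases le_total δ δ' with hle | hle
          · exact Or.inr ⟨δ', hδ', add_mem (hKmono _ _ (Iic_subset_Iic.2 hle) h1) h2⟩
          · exact Or.inr ⟨δ, hδ, add_mem h1 (hKmono _ _ (Iic_subset_Iic.2 hle) h2)⟩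
  have hKic : ∀ (γ : I) (y : E), y ∈ Kc (Iic γ) → ∃ g ∈ Kc (Iio γ), ∃ n : ℤ, y = g + n • x γ := by
    intro γ y hy
    have e1 : Kc (Iic γ) = Kc (Iio γ) ⊔ AddSubgroup.zmultiples (x γ) := by
      simp only [Kc]
      rw [← Iio_insert, image_insert_eq, union_insert, ← union_singleton,
        AddSubgroup.closure_union, AddSubgroup.zmultiples_eq_closure]
    rw [e1, AddSubgroup.mem_sup] at hy
    obtain ⟨g, hg, z, hz, rfl⟩ := hy
    obtain ⟨n, rfl⟩ := AddSubgroup.mem_zmultiples_iff.1 hz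
    exact ⟨g, hg, n, rfl⟩
  have key : ∀ (A : Set I), (∀ i ∈ A, ∀ j < i, j ∈ A) →
      (∀ γ ∈ A, P γ → good γ (Kc (Iio γ)) (Zc γ) (x γ)) → ∀ β ∈ A, P β → F β (x β) ∉ Kc A := by
    intro A hlow hgood β hβ hPβ hcon
    have hb : F β (x β) ∉ Kc (Iio β) := by
      intro h
      apply (hgood β hβ hPβ).2 0 _ h
      simp
    have claim : ∀ γ, γ ∈ A → F β (x β) ∉ Kc (Iic γ) := by
      intro γ
      induction γ using WellFoundedLT.induction with
      | ind γ ih =>
        intro hγ h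
        obtain ⟨g, hg, n, e⟩ := hKic γ _ h
        rcases lt_trichotomy γ β with hlt | heq | hgt
        · apply hb
          exact hKmono _ _ (Iic_subset_Iio.2 hlt) h
        · subst heq
          exact (hgood γ hβ hPβ).2 n g hg e
        · by_cases hPγ : P γ
          · apply (hgood γ hγ hPγ).1 n g hg
            rw [← e]
            exact ⟨β, hgt, hPβ, rfl⟩
          · rw [hx0 γ hPγ, smul_zero, add_zero] at e
            rw [← e] at hg
            rcases hA _ _ hg with h0 | ⟨δ, hδ, h1⟩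
            · exact hb (hG0K _ h0)
            · exact ih δ hδ (hlow γ hγ δ hδ) h1
    rcases hA _ _ hcon with h0 | ⟨δ, hδ, h1⟩
    · exact hb (hG0K _ h0)
    · exact claim δ hδ h1
  have hall : ∀ α, P α → good α (Kc (Iio α)) (Zc α) (x α) := by
    intro α
    induction α using WellFoundedLT.induction with
    | ind α ih =>
      intro hPα
      apply hxg α hPα
      apply hsel α hPα
      · apply card_closure_lt
        refine (mk_union_le _ _).trans_lt (add_lt_of_lt aleph0_le_continuum hG0 ?_)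
        exact mk_image_le.trans_lt (hI α)
      · have : Zc α ⊆ (fun j => F j (x j)) '' (Iio α) := by
          rintro z ⟨j, h1, h2, h3⟩
          exact ⟨j, h1, h3⟩
        exact (mk_le_mk_of_subset this).trans_lt (mk_image_le.trans_lt (hI α))
      · rintro z ⟨j, h1, h2, rfl⟩
        exact key (Iio α) (fun i hi j hj => lt_trans hj hi) (fun γ hγ hP => ih γ hγ hP) j h1 h2
  refine ⟨Kc univ, ?_, ?_⟩
  · intro y hy
    exact AddSubgroup.subset_closure (Or.inl hy)
  · intro i hi
    refine ⟨x i, AddSubgroup.subset_closure (Or.inr ⟨i, mem_univ _, rfl⟩), ?_⟩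
    exact key univ (fun _ _ _ _ => mem_univ _) (fun γ _ hP => hall γ hP) i (mem_univ _) hi

end Pool.Agent.R252.Plastic
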