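import Mathlib
import Pool.Agent.R252.Plastic.Cantor
import Pool.Agent.R252.Plastic.Rec

set_option autoImplicit false

namespace Pool.Agent.R252.Plastic

open Set Cardinal Topology

variable {E : Type} [NormedAddCommGroup E] [NormedSpace ℝ E]

theorem exists_sel [CompleteSpace E] [SecondCountableTopology E] {F : E → E} (hF : Continuous F)
    (hP : ¬ CC (fun (n : ℤ) x => F x - n • x) univ) (G' : AddSubgroup E) (Z : Set E)
    (hG : #G' < 𝔠) (hZ : #Z < 𝔠) (hd : ∀ z ∈ Z, z ∉ G') :
    ∃ x, (∀ n : ℤ, ∀ g ∈ G', g + n • x ∉ Z) ∧ (∀ n : ℤ, ∀ g ∈ G', F x ≠ g + n • x) := by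
  obtain ⟨e, he⟩ := exists_cantor (fun (n : ℤ) x => F x - n • x)
    (fun n => hF.sub (continuous_const_smul n)) hP
  by_contra hcon
  push Not at hcon
  have h0 : Function.Injective (fun c => F (e c)) := by
    have := he 0
    simpa [Function.comp_def] using this
  have h1 : ∀ c : ℕ → Bool, ∃ w : (ℤ × G' × Z) ⊕ (ℤ × G'),
      (∀ n g z, w = Sum.inl (n, g, z) → (g : E) + n • e c = z) ∧
      (∀ n g, w = Sum.inr (n, g) → F (e c) = g + n • e c) := by
    intro c
    by_cases hc : ∀ n : ℤ, ∀ g ∈ G', g + n • e c ∉ Z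
    · obtain ⟨n, g, hg, h⟩ := hcon (e c) hc
      refine ⟨Sum.inr (n, ⟨g, hg⟩), ?_, ?_⟩
      · intro n g z h
        cases h
      · intro n' g' h'
        cases h'
        exact h
    · push Not at hc
      obtain ⟨n, g, hg, h⟩ := hc
      refine ⟨Sum.inl (n, ⟨g, hg⟩, ⟨_, h⟩), ?_, ?_⟩
      · intro n' g' z' h'
        cases h'
        rfl
      · intro n g h
        cases h
  choose w hw1 hw2 using h1
  have hinj : Function.Injective w := by
    intro c c' hcc
    rcases hwc : w c with ⟨n, g, z⟩ | ⟨n, g⟩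
    · have e1 := hw1 c n g z hwc
      have e2 := hw1 c' n g z (hcc ▸ hwc)
      have hn : n ≠ 0 := by
        rintro rfl
        rw [zero_smul, add_zero] at e1
        exact hd z z.2 (e1 ▸ g.2)
      have e3 : n • e c = n • e c' := by
        have : (g : E) + n • e c = g + n • e c' := by rw [e1, e2]
        exact add_left_cancel this
      have e4 : e c = e c' := by
        rw [← Int.cast_smul_eq_zsmul ℝ, ← Int.cast_smul_eq_zsmul ℝ n (e c')] at e3
        exact smul_right_injective E (Int.cast_ne_zero.2 hn) e3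
      apply h0
      simp only [e4]
    · have e1 := hw2 c n g hwc
      have e2 := hw2 c' n g (hcc ▸ hwc)
      apply he n
      simp only [Function.comp_apply]
      rw [e1, e2]
      simp
  have h2 : 𝔠 ≤ #((ℤ × G' × Z) ⊕ (ℤ × G')) := by
    have : #(ℕ → Bool) = 𝔠 := by simp
    rw [← this]
    exact mk_le_of_injective hinj
  have h3 : #((ℤ × G' × Z) ⊕ (ℤ × G')) < 𝔠 := by
    rw [mk_sum, mk_prod, mk_prod, mk_prod]
    simp only [lift_id]
    have hZ' : #ℤ < 𝔠 := by rw [mk_int]; exact aleph0_lt_continuum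
    apply add_lt_of_lt aleph0_le_continuum
    · apply mul_lt_of_lt aleph0_le_continuum hZ'
      simpa using mul_lt_of_lt aleph0_le_continuum hG hZ
    · exact mul_lt_of_lt aleph0_le_continuum hZ' hG
  exact absurd h2 (not_le.2 h3)

lemma step1 {F : E → E} (hF : Continuous F) (hP : CC (fun (n : ℤ) x => F x - n • x) univ)
    (x v : E) : ∃ c : ℝ, F (x + v) - F x = c • v := by
  by_cases hv : v = 0
  · exact ⟨0, by simp [hv]⟩
  by_contra hcon
  push Not at hcon
  set w := F (x + v) - F x with hw
  obtain ⟨l1, hl1⟩ := SeparatingDual.exists_eq_one (R := ℝ) hv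
  have hw' : w - l1 w • v ≠ 0 := by
    intro h
    exact hcon (l1 w) (sub_eq_zero.1 h)
  obtain ⟨l2, hl2⟩ := SeparatingDual.exists_eq_one (R := ℝ) hw'
  set l : StrongDual ℝ E := l2 - l2 v • l1 with hl
  have hlv : l v = 0 := by
    simp [hl, hl1]
  have hlw : l w = 1 := by
    have h1 : l (w - l1 w • v) = 1 := by
      have h2 : l1 (w - l1 w • v) = 0 := by simp [hl1]
      simp only [hl, sub_apply, smul_apply, h2, hl2]
      simp
    rw [map_sub, map_smul, hlv] at h1
    simpa using h1
  obtain ⟨S, hS, hcov⟩ := hP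
  have hcont : Continuous fun t : ℝ => l (F (x + t • v)) := by fun_prop
  have hrange : range (fun t : ℝ => l (F (x + t • v))) ⊆ (fun s : ℤ × E => s.1 • l x + l s.2) '' S := by
    rintro _ ⟨t, rfl⟩
    obtain ⟨s, hs, h⟩ := hcov (x + t • v) (mem_univ _)
    refine ⟨s, hs, ?_⟩
    have : F (x + t • v) = s.1 • (x + t • v) + s.2 := by
      rw [← h]; exact (add_sub_cancel _ _).symm
    simp only [this, map_add, map_zsmul, map_smul, hlv]
    simp
  have hsub : (range (fun t : ℝ => l (F (x + t • v)))).Subsingleton :=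
    ((hS.image _).mono hrange).isTotallyDisconnected _ subset_rfl (isPreconnected_range hcont)
  have := hsub ⟨1, rfl⟩ ⟨0, rfl⟩
  simp only [one_smul, zero_smul, add_zero] at this
  have h3 : l w = 0 := by
    rw [hw, map_sub, this, sub_self]
  rw [hlw] at h3
  exact one_ne_zero h3

lemma affine {F : E → E} (hF : Continuous F) (hP : CC (fun (n : ℤ) x => F x - n • x) univ)
    {u w : E} (huw : ∀ a b : ℝ, a • u = b • w → a = 0 ∧ b = 0) :
    ∃ n : ℤ, ∃ b : E, ∀ x, F x = n • x + b := by
  have h0 : ∀ y : E, ∃ c : ℝ, F y - F 0 = c • y := by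
    intro y
    simpa using step1 hF hP 0 y
  choose a ha using h0
  have key : ∀ y z : E, (∀ s t : ℝ, s • y = t • z → s = 0 ∧ t = 0) → a y = a z := by
    intro y z hyz
    obtain ⟨c, hc⟩ := step1 hF hP y (z - y)
    have e1 : (a z - c) • z = (a y - c) • y := by
      have e2 : F z - F y = a z • z - a y • y := by
        rw [← ha, ← ha]; abel
      rw [add_sub_cancel, e2] at hc
      rw [sub_smul, sub_smul]
      rw [smul_sub, sub_eq_sub_iff_add_eq_add] at hc
      rw [sub_eq_sub_iff_add_eq_add, hc, add_comm]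
    obtain ⟨e3, e4⟩ := hyz _ _ e1.symm
    linarith
  have hu : u ≠ 0 := by
    rintro rfl
    have := (huw 1 0 (by simp)).1
    exact one_ne_zero this
  have hall : ∀ y : E, y ≠ 0 → a y = a u := by
    intro y hy
    by_cases h : ∀ s t : ℝ, s • y = t • u → s = 0 ∧ t = 0
    · exact key y u h
    · push Not at h
      obtain ⟨s, t, hst, hne⟩ := h
      have hs : s ≠ 0 := by
        rintro rfl
        have ht : t ≠ 0 := hne rfl
        rw [zero_smul] at hst
        exact hu ((smul_eq_zero.1 hst.symm).resolve_left ht)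
      have hyu : y = (s⁻¹ * t) • u := by
        rw [mul_smul, ← hst, smul_smul, inv_mul_cancel₀ hs, one_smul]
      have ht : s⁻¹ * t ≠ 0 := by
        intro h
        rw [h, zero_smul] at hyu
        exact hy hyu
      have h1 : a y = a w := by
        apply key
        intro α β hαβ
        rw [hyu, smul_smul] at hαβ
        obtain ⟨h2, h3⟩ := huw _ _ hαβ
        exact ⟨(mul_eq_zero.1 h2).resolve_right ht, h3⟩
      rw [h1]
      exact (key u w huw).symm
  have hF' : ∀ x, F x = a u • x + F 0 := by
    intro x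
    by_cases hx : x = 0
    · simp [hx]
    · rw [← hall x hx, ← ha]; abel
  obtain ⟨S, hS, hcov⟩ := hP
  by_contra hcon
  push Not at hcon
  have hint : ∀ n : ℤ, (a u - n) ≠ 0 := by
    intro n hn
    obtain ⟨x, hx⟩ := hcon n (F 0)
    apply hx
    rw [hF' x, sub_eq_zero.1 hn, Int.cast_smul_eq_zsmul]
  have hEc : (univ : Set E).Countable := by
    have : (univ : Set E) ⊆ (fun s : ℤ × E => (a u - s.1)⁻¹ • (s.2 - F 0)) '' S := by
      intro x _
      obtain ⟨s, hs, h⟩ := hcov x (mem_univ _)
      refine ⟨s, hs, ?_⟩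
      have h' : F x - s.1 • x = s.2 := h
      have h2 : F x - s.1 • x - F 0 = (a u - s.1) • x := by
        rw [sub_smul, Int.cast_smul_eq_zsmul, hF' x]; abel
      simp only
      rw [← h', h2, smul_smul, inv_mul_cancel₀ (hint _), one_smul]
    exact (hS.image _).mono this
  have hRc : (univ : Set ℝ).Countable := by
    have hinj : Function.Injective (fun t : ℝ => t • u) := smul_left_injective ℝ hu
    have := hEc.preimage_of_injOn (f := fun t : ℝ => t • u) hinj.injOn
    simpa using this
  exact not_countable_real hRc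

omit [NormedSpace ℝ E] in
/-- extension of a non-expansive map from a dense subgroup -/
lemma exists_ext [CompleteSpace E] {G : AddSubgroup E} (hG : Dense (G : Set E)) (f : G → G)
    (hf : ∀ x y, dist (f x) (f y) ≤ dist x y) :
    ∃ F : E → E, LipschitzWith 1 F ∧ ∀ g : G, F g = f g := by
  have hfl : LipschitzWith 1 (fun g : G => (f g : E)) := by
    apply LipschitzWith.of_dist_le_mul
    intro x y
    rw [NNReal.coe_one, one_mul]
    exact hf x y
  have hu : IsUniformInducing (Subtype.val : G → E) := isUniformInducing_val _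
  have hd : DenseRange (Subtype.val : G → E) := by
    rw [DenseRange, Subtype.range_coe]
    exact hG
  let F : E → E := (hu.isDenseInducing hd).extend (fun g : G => (f g : E))
  have hFc : UniformContinuous F := uniformContinuous_uniformly_extend hu hd hfl.uniformContinuous
  have hFg : ∀ g : G, F g = f g := fun g => uniformly_extend_of_ind hu hd hfl.uniformContinuous g
  refine ⟨F, ?_, hFg⟩
  apply LipschitzWith.of_dist_le_mul
  intro x y
  rw [NNReal.coe_one, one_mul]
  have hcl : IsClosed {p : E × E | dist (F p.1) (F p.2) ≤ dist p.1 p.2} :=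
    isClosed_le ((hFc.continuous.comp continuous_fst).dist (hFc.continuous.comp continuous_snd))
      (continuous_fst.dist continuous_snd)
  have hdense : Dense ((G : Set E) ×ˢ (G : Set E)) := hG.prod hG
  have hsub : (G : Set E) ×ˢ (G : Set E) ⊆ {p : E × E | dist (F p.1) (F p.2) ≤ dist p.1 p.2} := by
    rintro ⟨a, b⟩ ⟨ha, hb⟩
    have h1 := hf ⟨a, ha⟩ ⟨b, hb⟩
    have e1 := hFg ⟨a, ha⟩
    have e2 := hFg ⟨b, hb⟩
    simp only at e1 e2
    show dist (F a) (F b) ≤ dist a b
    rw [e1, e2]
    exact h1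
  have := hcl.closure_subset_iff.2 hsub (hdense (x, y))
  exact this

lemma mk_le_continuum {X : Type} [MetricSpace X] [SecondCountableTopology X] : #X ≤ 𝔠 := by
  cases isEmpty_or_nonempty X
  · simp
  have hinj : Function.Injective (fun (x : X) (n : ℕ) => dist x (TopologicalSpace.denseSeq X n)) := by
    intro x y hxy
    have h1 : ∀ z : X, dist x z = dist y z := by
      have hc : IsClosed {z : X | dist x z = dist y z} := isClosed_eq (by fun_prop) (by fun_prop)
      have hs : range (TopologicalSpace.denseSeq X) ⊆ {z : X | dist x z = dist y z} := by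
        rintro _ ⟨n, rfl⟩
        exact congrFun hxy n
      intro z
      exact hc.closure_subset_iff.2 hs (TopologicalSpace.denseRange_denseSeq X z)
    have h2 := h1 y
    rw [dist_self] at h2
    exact dist_eq_zero.1 h2
  refine (mk_le_of_injective hinj).trans ?_
  rw [← power_def, mk_nat, mk_real]
  simp

lemma mk_lip_le {X : Type} [MetricSpace X] [SecondCountableTopology X] [Nonempty X] :
    #{F : X → X // LipschitzWith 1 F} ≤ 𝔠 := by
  have hinj : Function.Injective (fun (F : {F : X → X // LipschitzWith 1 F}) (n : ℕ) =>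
      F.1 (TopologicalSpace.denseSeq X n)) := by
    intro F F' h
    apply Subtype.ext
    apply Continuous.ext_on (TopologicalSpace.denseRange_denseSeq X) F.2.continuous
      F'.2.continuous
    rintro _ ⟨n, rfl⟩
    exact congrFun h n
  refine (mk_le_of_injective hinj).trans ?_
  rw [← power_def, mk_nat]
  exact (power_le_power_right mk_le_continuum).trans (by simp)

/-- Every separable real Banach space of dimension at least two has a dense plastic subgroup. -/
theorem exists_plastic [CompleteSpace E] [SecondCountableTopology E]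
    {u w : E} (huw : ∀ a b : ℝ, a • u = b • w → a = 0 ∧ b = 0) :
    ∃ G : AddSubgroup E, Dense (G : Set E) ∧ ∀ f : G → G, Function.Bijective f →
      (∀ x y, dist (f x) (f y) ≤ dist x y) → ∀ x y, dist (f x) (f y) = dist x y := by
  classical
  have hu : u ≠ 0 := by
    rintro rfl
    have := (huw 1 0 (by simp)).1
    exact one_ne_zero this
  let I : Type := (𝔠 : Cardinal.{0}).ord.ToType
  have hI : #I = 𝔠 := mk_ord_toType _
  have hIio : ∀ i : I, #(Iio i) < 𝔠 := by
    intro i
    have := mk_Iio_lt i (by rw [hI]; exact (Ordinal.type_toType _).symm)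
    rwa [hI] at this
  have hle : #{F : E → E // LipschitzWith 1 F} ≤ #I := by
    rw [hI]
    exact mk_lip_le
  have : Nonempty {F : E → E // LipschitzWith 1 F} := ⟨⟨id, LipschitzWith.id⟩⟩
  obtain ⟨ψ⟩ := hle
  obtain ⟨φ, hφ⟩ : ∃ φ : I → {F : E → E // LipschitzWith 1 F}, Function.Surjective φ :=
    ⟨Function.invFun ψ, Function.invFun_surjective ψ.injective⟩
  have hD0 : #(range (TopologicalSpace.denseSeq E)) < 𝔠 :=
    lt_of_le_of_lt (countable_range _).le_aleph0 aleph0_lt_continuum
  obtain ⟨G, hG0, hG⟩ := exists_group hIio (fun i => (φ i).1)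
    (fun i => ¬ CC (fun (n : ℤ) x => (φ i).1 x - n • x) univ) (range (TopologicalSpace.denseSeq E))
    hD0 (fun i hi G' Z h1 h2 h3 => exists_sel (φ i).2.continuous hi G' Z h1 h2 h3)
  have hdense : Dense (G : Set E) := (TopologicalSpace.denseRange_denseSeq E).mono hG0
  refine ⟨G, hdense, ?_⟩
  intro f hbij hf
  obtain ⟨F, hF, hFg⟩ := exists_ext hdense f hf
  obtain ⟨i, hi⟩ := hφ ⟨F, hF⟩
  have hi' : (φ i).1 = F := by rw [hi]
  have hcc : CC (fun (n : ℤ) x => F x - n • x) univ := by
    by_contra hcon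
    obtain ⟨x, hx, hx'⟩ := hG i (by rw [hi']; exact hcon)
    apply hx'
    simp only [hi']
    have := hFg ⟨x, hx⟩
    simp only at this
    rw [this]
    exact (f ⟨x, hx⟩).2
  obtain ⟨n, b, hn⟩ := affine hF.continuous hcc huw
  have hdist : ∀ x y : E, dist (F x) (F y) = |(n : ℝ)| * dist x y := by
    intro x y
    rw [hn x, hn y, dist_add_right, dist_eq_norm, dist_eq_norm, ← smul_sub,
      ← Int.cast_smul_eq_zsmul ℝ, norm_smul, Real.norm_eq_abs]
  have hn1 : |(n : ℝ)| ≤ 1 := by
    have h1 := hF.dist_le_mul u 0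
    rw [hdist, NNReal.coe_one, one_mul, dist_zero_right] at h1
    have h2 : 0 < ‖u‖ := norm_pos_iff.2 hu
    by_contra hcon
    push Not at hcon
    nlinarith
  have hn0 : n ≠ 0 := by
    rintro rfl
    obtain ⟨g, hg, hgne⟩ : ∃ g ∈ (G : Set E), g ≠ 0 := by
      obtain ⟨g, hg, hgu⟩ := hdense.exists_dist_lt u (norm_pos_iff.2 hu)
      refine ⟨g, hg, ?_⟩
      rintro rfl
      rw [dist_zero_right] at hgu
      exact lt_irrefl _ hgu
    have h1 : f ⟨g, hg⟩ = f 0 := by
      apply Subtype.ext
      rw [← hFg, ← hFg, hn, hn]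
      simp
    have h2 := hbij.1 h1
    exact hgne (congrArg Subtype.val h2)
  have hn2 : |(n : ℝ)| = 1 := by
    have h1 : (1 : ℤ) ≤ |n| := Int.one_le_abs hn0
    have h2 : (1 : ℝ) ≤ |(n : ℝ)| := by exact_mod_cast h1
    exact le_antisymm hn1 h2
  intro x y
  have h1 := hdist x y
  rw [hFg, hFg, hn2, one_mul] at h1
  exact h1

end Pool.Agent.R252.Plastic
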